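import Pool.Agent.Helper35.BR.Defs

/-!
# BR, block END, P2: Skolem-Noether for representations over a field
-/

set_option autoImplicit false

namespace Pool.Agent.Helper98.BR

open Pool.Agent.Helper35.BR

/-- automorphisms of matrix algebras are inner -/
theorem inner {Ω : Type*} [Field Ω] {m : ℕ}
    (θ : Matrix (Fin m) (Fin m) Ω ≃ₐ[Ω] Matrix (Fin m) (Fin m) Ω) :
    ∃ u : (Matrix (Fin m) (Fin m) Ω)ˣ, ∀ x, θ x = u * x *
      ((u⁻¹ : (Matrix (Fin m) (Fin m) Ω)ˣ) : Matrix (Fin m) (Fin m) Ω) := by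
  obtain ⟨T, hT⟩ := AlgEquiv.eq_linearEquivConjAlgEquiv
    ((algEquivMatrix' (R := Ω) (n := Fin m)).trans (θ.trans algEquivMatrix'.symm))
  refine ⟨⟨LinearMap.toMatrix' (T : (Fin m → Ω) →ₗ[Ω] (Fin m → Ω)),
    LinearMap.toMatrix' (T.symm : (Fin m → Ω) →ₗ[Ω] (Fin m → Ω)), ?_, ?_⟩, fun x => ?_⟩
  · rw [← LinearMap.toMatrix'_comp, LinearEquiv.comp_coe, LinearEquiv.symm_trans_self]
    exact LinearMap.toMatrix'_id
  · rw [← LinearMap.toMatrix'_comp, LinearEquiv.comp_coe, LinearEquiv.self_trans_symm]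
    exact LinearMap.toMatrix'_id
  · have h1 := DFunLike.congr_fun hT (Matrix.toLin' x)
    rw [LinearEquiv.conjAlgEquiv_apply] at h1
    have h2 : algEquivMatrix'.symm (θ (algEquivMatrix' (Matrix.toLin' x))) =
        (T : (Fin m → Ω) →ₗ[Ω] (Fin m → Ω)) ∘ₗ Matrix.toLin' x ∘ₗ
          (T.symm : (Fin m → Ω) →ₗ[Ω] (Fin m → Ω)) := h1
    have h3 : algEquivMatrix' (Matrix.toLin' x) = x := LinearMap.toMatrix'_toLin' x
    rw [h3] at h2
    have h4 := congrArg LinearMap.toMatrix' h2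
    have h5 : LinearMap.toMatrix' (algEquivMatrix'.symm (θ x)) = θ x :=
      LinearMap.toMatrix'_toLin' (θ x)
    rw [h5, LinearMap.toMatrix'_comp, LinearMap.toMatrix'_comp, LinearMap.toMatrix'_toLin',
      ← mul_assoc] at h4
    exact h4

/-- **P2.** -/
theorem skolem {Ω : Type} [Field Ω] {m : ℕ} {R : Type} [CommRing R] {A : Type} [Ring A]
    [Algebra R A] (φ : R →+* Ω) (e : Fin m × Fin m → A)
    (hspan : ∀ a : A, ∃ (d : R) (c : Fin m × Fin m → R), φ d ≠ 0 ∧ d • a = ∑ j, c j • e j)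
    (ρ ρ' : A →+* Matrix (Fin m) (Fin m) Ω) (hρ : Over φ ρ) (hρ' : Over φ ρ')
    (hdet : (Matrix.of fun j k : Fin m × Fin m => ρ (e j) k.1 k.2).det ≠ 0) :
    ∃ u : (Matrix (Fin m) (Fin m) Ω)ˣ, ρ' = (conj u).comp ρ := by
  classical
  rcases Nat.eq_zero_or_pos m with hm | hm
  · subst hm
    refine ⟨1, RingHom.ext fun a => ?_⟩
    exact Subsingleton.elim _ _
  set M : Matrix (Fin m × Fin m) (Fin m × Fin m) Ω :=
    Matrix.of fun j k : Fin m × Fin m => ρ (e j) k.1 k.2 with hM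
  have hu : IsUnit M.det := IsUnit.mk0 _ hdet
  let vec : Matrix (Fin m) (Fin m) Ω →ₗ[Ω] (Fin m × Fin m → Ω) :=
    { toFun := fun x k => x k.1 k.2
      map_add' := fun x y => rfl
      map_smul' := fun c x => rfl }
  have hvec : Function.Injective vec := by
    intro x y h
    ext p q
    exact congrFun h (p, q)
  let cf : Matrix (Fin m) (Fin m) Ω →ₗ[Ω] (Fin m × Fin m → Ω) := M⁻¹.vecMulLinear ∘ₗ vec
  have hcf : ∀ x, cf x = Matrix.vecMul (vec x) M⁻¹ := fun x => rfl
  have hcfe : ∀ j, cf (ρ (e j)) = Pi.single j 1 := by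
    intro j
    have h1 : vec (ρ (e j)) = Matrix.vecMul (Pi.single j 1) M := by
      rw [Matrix.single_one_vecMul]
      rfl
    rw [hcf, h1, Matrix.vecMul_vecMul, Matrix.mul_nonsing_inv _ hu, Matrix.vecMul_one]
  have hrep : ∀ x, x = ∑ j, cf x j • ρ (e j) := by
    intro x
    apply hvec
    have h1 : vec x = Matrix.vecMul (cf x) M := by
      rw [hcf, Matrix.vecMul_vecMul, Matrix.nonsing_inv_mul _ hu, Matrix.vecMul_one]
    rw [h1, map_sum]
    funext k
    rw [Matrix.vecMul, dotProduct, Finset.sum_apply]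
    rfl
  let θ : Matrix (Fin m) (Fin m) Ω →ₗ[Ω] Matrix (Fin m) (Fin m) Ω :=
    { toFun := fun x => ∑ j, cf x j • ρ' (e j)
      map_add' := fun x y => by
        rw [← Finset.sum_add_distrib]
        refine Finset.sum_congr rfl fun j _ => ?_
        rw [map_add, Pi.add_apply, add_smul]
      map_smul' := fun c x => by
        rw [RingHom.id_apply, Finset.smul_sum]
        refine Finset.sum_congr rfl fun j _ => ?_
        rw [map_smul, Pi.smul_apply, smul_eq_mul, mul_smul] }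
  have hθ : ∀ x, θ x = ∑ j, cf x j • ρ' (e j) := fun x => rfl
  have hθρ : ∀ a, θ (ρ a) = ρ' a := by
    intro a
    obtain ⟨d, c, hd, hc⟩ := hspan a
    have h1 : φ d • ρ a = ∑ j, φ (c j) • ρ (e j) := by
      rw [← hρ.smul, hc, map_sum]
      exact Finset.sum_congr rfl fun j _ => hρ.smul _ _
    have h2 : φ d • ρ' a = ∑ j, φ (c j) • ρ' (e j) := by
      rw [← hρ'.smul, hc, map_sum]
      exact Finset.sum_congr rfl fun j _ => hρ'.smul _ _
    have h3 : φ d • θ (ρ a) = φ d • ρ' a := by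
      rw [← map_smul, h1, h2, map_sum]
      refine Finset.sum_congr rfl fun j _ => ?_
      rw [map_smul, hθ, hcfe]
      congr 1
      rw [Finset.sum_eq_single j]
      · rw [Pi.single_eq_same, one_smul]
      · intro k _ hk
        rw [Pi.single_eq_of_ne hk, zero_smul]
      · intro h
        exact absurd (Finset.mem_univ j) h
    have h4 := congrArg (fun z => (φ d)⁻¹ • z) h3
    simpa only [smul_smul, inv_mul_cancel₀ hd, one_smul] using h4
  have hone : θ 1 = 1 := by
    have h := hθρ 1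
    have h1 : ρ 1 = 1 := map_one ρ
    have h2 : ρ' 1 = 1 := map_one ρ'
    rwa [h1, h2] at h
  have hmul : ∀ x y, θ (x * y) = θ x * θ y := by
    intro x y
    have h1 : x * y = ∑ j, ∑ k, (cf x j * cf y k) • ρ (e j * e k) := by
      conv_lhs => rw [hrep x, hrep y]
      rw [Finset.sum_mul]
      refine Finset.sum_congr rfl fun j _ => ?_
      rw [Finset.mul_sum]
      refine Finset.sum_congr rfl fun k _ => ?_
      rw [smul_mul_smul_comm, map_mul]
    rw [h1, map_sum, hθ x, hθ y, Finset.sum_mul]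
    refine Finset.sum_congr rfl fun j _ => ?_
    rw [map_sum, Finset.mul_sum]
    refine Finset.sum_congr rfl fun k _ => ?_
    rw [map_smul, hθρ, map_mul, smul_mul_smul_comm]
  let θa : Matrix (Fin m) (Fin m) Ω →ₐ[Ω] Matrix (Fin m) (Fin m) Ω :=
    AlgHom.ofLinearMap θ hone hmul
  have : Nonempty (Fin m) := ⟨⟨0, hm⟩⟩
  have hinj : Function.Injective θa := RingHom.injective θa.toRingHom
  have hbij : Function.Bijective θa :=
    ⟨hinj, (LinearMap.injective_iff_surjective (f := θa.toLinearMap)).1 hinj⟩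
  obtain ⟨u, hu'⟩ := inner (AlgEquiv.ofBijective θa hbij)
  refine ⟨u, RingHom.ext fun a => ?_⟩
  rw [← hθρ a]
  exact hu' (ρ a)

end Pool.Agent.Helper98.BR
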