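import Pool.Agent.Helper55.BR.Spec

/-!
# BR, block END: generic splitting and its specialisations
-/

set_option autoImplicit false

namespace Pool.Agent.Helper98.BR

section Loc

variable (R Ω : Type*) [CommRing R] [Field Ω] [Algebra R Ω]

/-- the elements which become integral after multiplication by a power of `δ` -/
def locInt (δ : R) : Subalgebra R Ω where
  carrier := {x | ∃ n : ℕ, IsIntegral R (δ ^ n • x)}
  mul_mem' := by
    rintro x y ⟨n, hn⟩ ⟨k, hk⟩
    refine ⟨n + k, ?_⟩
    have h : δ ^ (n + k) • (x * y) = (δ ^ n • x) * (δ ^ k • y) := by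
      rw [pow_add, smul_mul_smul_comm]
    rw [h]
    exact hn.mul hk
  add_mem' := by
    rintro x y ⟨n, hn⟩ ⟨k, hk⟩
    refine ⟨n + k, ?_⟩
    have h : δ ^ (n + k) • (x + y) = δ ^ k • (δ ^ n • x) + δ ^ n • (δ ^ k • y) := by
      rw [smul_smul, smul_smul, ← pow_add, ← pow_add, add_comm k n, smul_add]
    rw [h]
    exact (hn.smul _).add (hk.smul _)
  algebraMap_mem' := fun r => ⟨0, by
    rw [pow_zero, one_smul]
    exact isIntegral_algebraMap⟩

end Loc

variable {R Ω : Type*} [CommRing R] [Field Ω] [Algebra R Ω]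

theorem mem_locInt {δ : R} {x : Ω} : x ∈ locInt R Ω δ ↔ ∃ n : ℕ, IsIntegral R (δ ^ n • x) :=
  Iff.rfl

theorem isUnit_locInt {δ : R} (hinj : Function.Injective (algebraMap R Ω)) (hδ : δ ≠ 0) :
    IsUnit (algebraMap R (locInt R Ω δ) δ) := by
  have h0 : algebraMap R Ω δ ≠ 0 := fun h => hδ (hinj (by rw [h, map_zero]))
  refine IsUnit.of_mul_eq_one ⟨(algebraMap R Ω δ)⁻¹, ⟨1, ?_⟩⟩ ?_
  · rw [pow_one, Algebra.smul_def, mul_inv_cancel₀ h0]
    exact isIntegral_one
  · apply Subtype.ext
    show algebraMap R Ω δ * (algebraMap R Ω δ)⁻¹ = 1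
    exact mul_inv_cancel₀ h0

/-- specialisations extend -/
theorem exists_extend_locInt {δ : R} (hinj : Function.Injective (algebraMap R Ω)) (hδ : δ ≠ 0)
    {Ω' : Type*} [Field Ω'] [IsAlgClosed Ω'] (ψ : R →+* Ω') (hψ : ψ δ ≠ 0) :
    ∃ ε : locInt R Ω δ →+* Ω', ∀ a, ε (algebraMap R (locInt R Ω δ) a) = ψ a := by
  let A' := Localization.Away δ
  let f : A' →+* locInt R Ω δ := IsLocalization.Away.lift δ (isUnit_locInt hinj hδ)
  have hf : ∀ r : R, f (algebraMap R A' r) = algebraMap R (locInt R Ω δ) r := fun r =>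
    IsLocalization.Away.lift_eq δ (isUnit_locInt hinj hδ) r
  let φ : A' →+* Ω' := IsLocalization.Away.lift (S := A') δ (IsUnit.mk0 _ hψ)
  have hφ : ∀ r : R, φ (algebraMap R A' r) = ψ r := fun r =>
    IsLocalization.Away.lift_eq δ (IsUnit.mk0 _ hψ) r
  let iA : Algebra A' (locInt R Ω δ) := f.toAlgebra
  have hst : IsScalarTower R A' (locInt R Ω δ) := IsScalarTower.of_algebraMap_eq fun r => (hf r).symm
  have hu : IsUnit (algebraMap R A' δ) := IsLocalization.Away.algebraMap_isUnit δ
  have hint : Algebra.IsIntegral A' (locInt R Ω δ) := by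
    refine ⟨fun x => ?_⟩
    obtain ⟨n, hn⟩ := x.2
    have h1 : IsIntegral R (δ ^ n • x) := by
      have h2 : ((δ ^ n • x : locInt R Ω δ) : Ω) = δ ^ n • (x : Ω) := rfl
      rw [← h2] at hn
      exact (isIntegral_algHom_iff (locInt R Ω δ).val Subtype.val_injective).1 hn
    have h3 : IsIntegral A' (δ ^ n • x) := h1.tower_top
    obtain ⟨v, hv⟩ := hu.pow n
    have h4 : x = (↑v⁻¹ : A') • (δ ^ n • x) := by
      rw [← algebraMap_smul A' (δ ^ n) x, map_pow, ← hv, smul_smul, Units.inv_mul, one_smul]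
    rw [h4]
    exact h3.smul _
  obtain ⟨ε, hε⟩ := Pool.Agent.Helper55.BR.exists_extend (A := A') (C := locInt R Ω δ) φ
    (fun a ha => by
      obtain ⟨r, s, hrs⟩ := IsLocalization.exists_mk'_eq (Submonoid.powers δ) a
      have h1 : a * algebraMap R A' s = algebraMap R A' r := by
        rw [← hrs, IsLocalization.mk'_spec]
      have h2 : algebraMap R (locInt R Ω δ) r = 0 := by
        rw [← hf, ← h1, map_mul]
        show algebraMap A' (locInt R Ω δ) a * _ = 0
        rw [ha, zero_mul]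
      have h3 : r = 0 := by
        apply hinj
        rw [map_zero]
        exact congrArg Subtype.val h2
      rw [← hrs, h3, IsLocalization.mk'_zero, map_zero])
  refine ⟨ε, fun a => ?_⟩
  rw [← hφ, ← hε]
  congr 1
  exact (hf a).symm

end Pool.Agent.Helper98.BR
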